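import Pool.Agent.helper19.FR.Spec

set_option autoImplicit false

/-! Row fr:TRI (MP_bf63dc_nt): one of the first three powers. -/

namespace Pool.Agent.FR

open Finset Real Pool.Agent.AT Pool.Agent.OM Pool.Agent.helper85.FC

theorem TRI_rp {g u v : ℕ} (hg : 0 < g) (h : Nat.Coprime u v) : rp (g * u) (g * v) = (u, v) := by
  unfold rp
  rw [Nat.gcd_mul_left, h.gcd_eq_one, mul_one, Nat.mul_div_cancel_left _ hg, Nat.mul_div_cancel_left _ hg]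

theorem TRI_pair (a b i j : ℕ) (ha : 0 < a) (hb : 0 < b) (hij : i < j) (hj : j ≤ 3) :
    ∃ g, 0 < g ∧ a ^ i * b ^ (3 - i) = g * b ^ (j - i) ∧ a ^ j * b ^ (3 - j) = g * a ^ (j - i) := by
  refine ⟨a ^ i * b ^ (3 - j), by positivity, ?_, ?_⟩
  · have h : 3 - i = (3 - j) + (j - i) := by omega
    rw [h, pow_add, mul_assoc]
  · have h : j = i + (j - i) := by omega
    calc a ^ j * b ^ (3 - j) = a ^ (i + (j - i)) * b ^ (3 - j) := by rw [← h]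
      _ = _ := by rw [pow_add]; ring

theorem TRI_two (a b : ℕ) (ha : 0 < a) (hb : 0 < b) (i j : Fin 4) (hij : i ≠ j) :
    ∃ g e x y : ℕ, 0 < g ∧ 1 ≤ e ∧ e ≤ 3 ∧ ((x = a ∧ y = b) ∨ (x = b ∧ y = a)) ∧
      a ^ (i : ℕ) * b ^ (3 - (i : ℕ)) = g * x ^ e ∧ a ^ (j : ℕ) * b ^ (3 - (j : ℕ)) = g * y ^ e := by
  have hne : (i : ℕ) ≠ j := fun h => hij (Fin.ext h)
  have hi := i.isLt
  have hj := j.isLt
  rcases lt_or_gt_of_ne hne with h | h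
  · obtain ⟨g, hg, h1, h2⟩ := TRI_pair a b i j ha hb h (by omega)
    exact ⟨g, j - i, b, a, hg, by omega, by omega, Or.inr ⟨rfl, rfl⟩, h1, h2⟩
  · obtain ⟨g, hg, h1, h2⟩ := TRI_pair a b j i ha hb h (by omega)
    exact ⟨g, i - j, a, b, hg, by omega, by omega, Or.inl ⟨rfl, rfl⟩, h2, h1⟩

theorem TRI (hGLB : GLB_stmt) (hGSY : GSY_stmt) : TRI_stmt := by
  intro ε hε
  obtain ⟨E, hE⟩ := hGLB ε hε
  obtain ⟨B, hB⟩ : ∃ B : ℕ, B = (∑ r ∈ E, (r.1 + r.2)) + 1 := ⟨_, rfl⟩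
  have hEB : ∀ r ∈ E, r.1 ≤ B ∧ r.2 ≤ B := by
    intro r hr
    have h1 : r.1 + r.2 ≤ ∑ r ∈ E, (r.1 + r.2) := Finset.single_le_sum (f := fun r : ℕ × ℕ => r.1 + r.2)
      (fun _ _ => Nat.zero_le _) hr
    constructor <;> omega
  refine ⟨Icc 0 B ×ˢ Icc 0 B, fun a b ha hb hab hnot => ?_⟩
  have hbig : ¬ (a ≤ B ∧ b ≤ B) := by
    rintro ⟨h1, h2⟩
    apply hnot
    rw [mem_product, mem_Icc, mem_Icc]
    exact ⟨⟨Nat.zero_le _, h1⟩, Nat.zero_le _, h2⟩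
  have hne : a ≠ b := by
    intro h
    rw [← h, Nat.coprime_self] at hab
    apply hbig
    omega
  have hinj : Function.Injective (fun i : Fin 4 => a ^ (i : ℕ) * b ^ (3 - (i : ℕ))) := by
    intro i j hij
    by_contra hne'
    obtain ⟨g, e, x, y, hg, he, -, hxy, h1, h2⟩ := TRI_two a b ha hb i j hne'
    have h3 : g * x ^ e = g * y ^ e := by
      rw [← h1, ← h2]
      exact hij
    have h4 : x ^ e = y ^ e := Nat.eq_of_mul_eq_mul_left hg h3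
    have h5 : x = y := Nat.pow_left_injective (by omega : e ≠ 0) h4
    rcases hxy with ⟨h6, h7⟩ | ⟨h6, h7⟩
    · exact hne (by rw [← h6, ← h7, h5])
    · exact hne (by rw [← h6, ← h7, h5])
  have hrp : ∀ i j : Fin 4, i ≠ j → ∃ e x y : ℕ, 1 ≤ e ∧ e ≤ 3 ∧ ((x = a ∧ y = b) ∨ (x = b ∧ y = a)) ∧
      rp (a ^ (i : ℕ) * b ^ (3 - (i : ℕ))) (a ^ (j : ℕ) * b ^ (3 - (j : ℕ))) = (x ^ e, y ^ e) := by
    intro i j hij
    obtain ⟨g, e, x, y, hg, he, he3, hxy, h1, h2⟩ := TRI_two a b ha hb i j hij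
    refine ⟨e, x, y, he, he3, hxy, ?_⟩
    rw [h1, h2]
    refine TRI_rp hg (Nat.Coprime.pow _ _ ?_)
    rcases hxy with ⟨h6, h7⟩ | ⟨h6, h7⟩
    · rw [h6, h7]; exact hab
    · rw [h6, h7]; exact hab.symm
  obtain ⟨i, j, hij, hG⟩ := hE (fun i : Fin 4 => a ^ (i : ℕ) * b ^ (3 - (i : ℕ)))
    (fun i => ⟨by positivity, Set.mem_univ _⟩) hinj (fun i j hij hmem => by
      obtain ⟨e, x, y, he, -, hxy, h1⟩ := hrp i j hij
      have h2 : rp (a ^ (i : ℕ) * b ^ (3 - (i : ℕ))) (a ^ (j : ℕ) * b ^ (3 - (j : ℕ))) ∈ E := hmem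
      rw [h1] at h2
      obtain ⟨h3, h4⟩ := hEB _ h2
      have h5 : x ≤ B := (Nat.le_self_pow (by omega) x).trans h3
      have h6 : y ≤ B := (Nat.le_self_pow (by omega) y).trans h4
      rcases hxy with ⟨h7, h8⟩ | ⟨h7, h8⟩
      · rw [h7] at h5
        rw [h8] at h6
        exact hbig ⟨h5, h6⟩
      · rw [h7] at h5
        rw [h8] at h6
        exact hbig ⟨h6, h5⟩)
  obtain ⟨e, x, y, he, he3, hxy, h1⟩ := hrp i j hij
  have h2 : GoodR ε (rp (a ^ (i : ℕ) * b ^ (3 - (i : ℕ))) (a ^ (j : ℕ) * b ^ (3 - (j : ℕ)))).1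
      (rp (a ^ (i : ℕ) * b ^ (3 - (i : ℕ))) (a ^ (j : ℕ) * b ^ (3 - (j : ℕ)))).2 := hG
  rw [h1] at h2
  have h3 : GoodR ε (a ^ e) (b ^ e) := by
    rcases hxy with ⟨h7, h8⟩ | ⟨h7, h8⟩
    · rw [h7, h8] at h2
      exact h2
    · rw [h7, h8] at h2
      exact hGSY ε _ _ h2
  have h4 : e = 1 ∨ e = 2 ∨ e = 3 := by omega
  rcases h4 with h4 | h4 | h4
  · rw [h4, pow_one, pow_one] at h3
    exact Or.inl h3
  · rw [h4] at h3
    exact Or.inr (Or.inl h3)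
  · rw [h4] at h3
    exact Or.inr (Or.inr h3)

end Pool.Agent.FR
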